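import Pool.Agent.Helper46.AK.Final

/-!
# Gaps above the least limit point of the multiplicative spectrum of a Pisot number

For every Pisot number `α > 3` (unit or not) the spectrum `L(α)` has a least limit point `t₀`,
and `[t₀, 1/2]` minus `L(α)` contains an interval of positive length.
-/

set_option autoImplicit false

namespace Pool.Agent.Results.MP_ae43c0_nt.GapAboveLeastLimitPoint

open Filter Topology

/-- A Pisot number: a real algebraic integer `α > 1` such that every conjugate of `α`
(complex root of the minimal polynomial of `α` over `ℚ`) other than `α` has absolute value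
less than one. -/
def IsPisot (α : ℝ) : Prop :=
  IsIntegral ℤ α ∧ 1 < α ∧
    ∀ z : ℂ, Polynomial.aeval z (minpoly ℚ α) = 0 → z ≠ (α : ℂ) → ‖z‖ < 1

/-- The spectrum `L(α)`: the set of all upper limits of the distances of `ξ α ^ n` to the
nearest integer, `ξ` real. -/
def spectrum (α : ℝ) : Set ℝ :=
  {t | ∃ ξ : ℝ, t = limsup (fun n : ℕ => |ξ * α ^ n - round (ξ * α ^ n)|) atTop}

theorem result (α : ℝ) (hα : IsPisot α) (h3 : 3 < α) :
    ∃ t₀ : ℝ, IsLeast {t : ℝ | AccPt t (𝓟 (spectrum α))} t₀ ∧
      ∃ a b : ℝ, a < b ∧ Set.Ioo a b ⊆ Set.Icc t₀ (1 / 2) \ spectrum α := by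
  have h : Pool.Agent.Helper46.AK.IsPisot α := by
    refine ⟨hα.1, hα.2.1, fun z hz1 hz2 => hα.2.2 z ?_ hz1⟩
    rw [minpoly.isIntegrallyClosed_eq_field_fractions' ℚ hα.1, Polynomial.aeval_map_algebraMap]
    exact hz2
  exact Pool.Agent.Helper46.AK.main h h3

end Pool.Agent.Results.MP_ae43c0_nt.GapAboveLeastLimitPoint
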